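import Pool.Agent.Helper83.NX.Main2

/-!
MP_3976d4_co, partial answer to Q1: an order-preserving map `f` of a poset of finite length with
a special element `s` has a fixed point if the values `f x` without meet with `s`, such that some
`f w`, `w ≥ x`, has no join with `s`, form a tame set; and dually. This contains the known cases:
finite posets, all meets with `s` exist, all joins with `s` exist.
-/

set_option autoImplicit false

universe u

namespace Pool.Agent.Results.MP_3976d4_co.TameWithoutMeet

/-- The poset `X` contains a ray of bounded diameter: an injective sequence with comparable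
consecutive members such that, for some `c` and `n`, every member is joined to `c` by a path of `n`
steps between comparable elements. -/
def HasBoundedRay (X : Type u) [PartialOrder X] : Prop :=
  ∃ v : ℕ → X, Function.Injective v ∧ (∀ k, v k ≤ v (k + 1) ∨ v (k + 1) ≤ v k) ∧
    ∃ (c : X) (n : ℕ), ∀ i, ∃ p : ℕ → X, p 0 = c ∧ p n = v i ∧
      ∀ j < n, p j ≤ p (j + 1) ∨ p (j + 1) ≤ p j

/-- The set `E` is tame: it has a covering `q : X → E` by a poset `X` without ray of bounded
diameter, where `q` is monotone and onto and comparabilities lift uniquely. This is the case if `E`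
is finite, if every element of `E` is comparable with only finitely many elements of `E`, if the
comparability graph of `E` contains no ray of bounded diameter, or if no three elements of `E` form
a chain. -/
def Tame {P : Type u} [PartialOrder P] (E : Set P) : Prop :=
  ∃ (X : Type u) (_ : PartialOrder X) (q : X → P),
    (∀ x, q x ∈ E) ∧ (∀ e ∈ E, ∃ x, q x = e) ∧ (∀ x y, x ≤ y → q x ≤ q y) ∧
      (∀ x, ∀ e ∈ E, q x ≤ e → ∃! y, x ≤ y ∧ q y = e) ∧
      (∀ x, ∀ e ∈ E, e ≤ q x → ∃! y, y ≤ x ∧ q y = e) ∧ ¬ HasBoundedRay X

theorem coverTame {P : Type u} [PartialOrder P] {E : Set P} (h : Tame E) :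
    Helper31.FX.CoverTame E := by
  obtain ⟨X, hX, q, h1, h2, h3, h4, h5, h6⟩ := h
  refine ⟨X, hX, q, ⟨h1, h2, h3, h4, h5⟩, fun hb => h6 ?_⟩
  obtain ⟨v, hv, -, hvc, c, n, hp⟩ := hb
  refine ⟨v, hv, hvc, c, n, fun i => ?_⟩
  obtain ⟨p, h0, hn, -, hc⟩ := hp i
  exact ⟨p, h0, hn, hc⟩

/-- Let `P` be a poset whose chains have bounded size, `s` an element of `P` and `f` an
order-preserving self-map of `P` such that for every value `y` of `f` the join or the meet of `s`
and `y` exists. Suppose that
(a) whenever `x < y ≤ w`, the meet of `s` and `f x` does not exist, the join of `s` and `f w` does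
not exist and the meet `m < s` of `s` and `f y` exists, the join of `m` and `f x` exists; and
the values `f x` which have no meet with `s` and for which some `f w` with `w ≥ x` has no join
with `s` form a tame set; or
(b) the order dual of (a).
Then `f` has a fixed point. -/
theorem result :
    ∀ (P : Type u) [PartialOrder P],
      (∃ n : ℕ, ∀ c : Finset P, IsChain (· ≤ ·) (c : Set P) → c.card ≤ n) →
      ∀ (s : P) (f : P → P), Monotone f →
        (∀ x : P, (∃ z : P, IsLUB ({s, f x} : Set P) z) ∨
          (∃ z : P, IsGLB ({s, f x} : Set P) z)) →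
        (((∀ x y w m : P, x < y → y ≤ w → (¬ ∃ z : P, IsGLB ({s, f x} : Set P) z) →
              (¬ ∃ z : P, IsLUB ({s, f w} : Set P) z) →
              IsGLB ({s, f y} : Set P) m → m < s → ∃ z : P, IsLUB ({m, f x} : Set P) z) ∧
            Tame {y : P | ∃ x w, x ≤ w ∧ f x = y ∧
              (¬ ∃ z : P, IsGLB ({s, f x} : Set P) z) ∧
              ¬ ∃ z : P, IsLUB ({s, f w} : Set P) z}) ∨
          ((∀ x y w m : P, y < x → w ≤ y → (¬ ∃ z : P, IsLUB ({s, f x} : Set P) z) →
              (¬ ∃ z : P, IsGLB ({s, f w} : Set P) z) →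
              IsLUB ({s, f y} : Set P) m → s < m → ∃ z : P, IsGLB ({m, f x} : Set P) z) ∧
            Tame {y : P | ∃ x w, w ≤ x ∧ f x = y ∧
              (¬ ∃ z : P, IsLUB ({s, f x} : Set P) z) ∧
              ¬ ∃ z : P, IsGLB ({s, f w} : Set P) z})) →
        ∃ x : P, f x = x := by
  intro P _ hn s f hf hi h
  rcases h with ⟨h1, h2⟩ | ⟨h1, h2⟩
  · exact Pool.Agent.Helper83.NX.main_critical P hn s f hf hi h1 (coverTame h2)
  · exact Pool.Agent.Helper83.NX.main_critical_dual P hn s f hf hi h1 (coverTame h2)

end Pool.Agent.Results.MP_3976d4_co.TameWithoutMeet
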